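import Mathlib

set_option autoImplicit false

open Matrix Filter

namespace Pool.Agent.Results.MP_7ca01f_co.UnboundedDistortion

/-- A weighted graph on the vertex set `V`: a simple graph together with a symmetric weight
function that is positive on the edges. -/
structure WeightedGraph (V : Type) where
  /-- the underlying simple graph, whose edge set is `E(H)` -/
  graph : SimpleGraph V
  /-- the weight of a pair; only its values on edges are used -/
  weight : V → V → ℝ
  /-- weights are symmetric -/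
  symm : ∀ u v, weight u v = weight v u
  /-- weights of edges are positive -/
  pos : ∀ u v, graph.Adj u v → 0 < weight u v

/-- The adjacency matrix of a weighted graph: the weight on edges, `0` elsewhere. -/
noncomputable def WeightedGraph.adj {V : Type} (H : WeightedGraph V) : Matrix V V ℝ :=
  open scoped Classical in
  Matrix.of fun u v => if H.graph.Adj u v then H.weight u v else 0

/-- The unweighted graph `G`, viewed as a weighted graph with all weights `1`. -/
def unweighted {V : Type} (G : SimpleGraph V) : WeightedGraph V where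
  graph := G
  weight := fun _ _ => 1
  symm := fun _ _ => rfl
  pos := fun _ _ _ => one_pos

/-- The Laplacian `D_H - A_H` of a weighted graph, `D_H` being the diagonal matrix of weighted
degrees. -/
noncomputable def WeightedGraph.lap {V : Type} [Fintype V] (H : WeightedGraph V) :
    Matrix V V ℝ :=
  open scoped Classical in
  Matrix.diagonal (fun u => ∑ v, H.adj u v) - H.adj

/-- `H` is a `(1 ± ε)`-Laplacian sparsifier of `G` (in particular `E(H) ⊆ E(G)`). -/
def IsSparsifier {V : Type} [Fintype V] (G : SimpleGraph V) (H : WeightedGraph V) (ε : ℝ) :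
    Prop :=
  H.graph ≤ G ∧
    ∀ x : V → ℝ,
      (1 - ε) * (x ⬝ᵥ ((unweighted G).lap *ᵥ x)) ≤ x ⬝ᵥ (H.lap *ᵥ x) ∧
      x ⬝ᵥ (H.lap *ᵥ x) ≤ (1 + ε) * (x ⬝ᵥ ((unweighted G).lap *ᵥ x))

/-- `l` is the largest eigenvalue of the real matrix `A`. -/
def IsLargestEigenvalue {V : Type} [Fintype V] (A : Matrix V V ℝ) (l : ℝ) : Prop :=
  IsGreatest {μ : ℝ | ∃ x : V → ℝ, x ≠ 0 ∧ A *ᵥ x = μ • x} l

/-! ### A Perron type bound -/

lemma perron_bound {V : Type} [Fintype V] (A : Matrix V V ℝ) (hA : ∀ i j, 0 ≤ A i j)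
    (x : V → ℝ) (hx : ∀ i, 0 < x i) (l : ℝ) (hAx : A *ᵥ x = l • x)
    (μ : ℝ) (y : V → ℝ) (hy : y ≠ 0) (hAy : A *ᵥ y = μ • y) : μ ≤ l := by
  classical
  obtain ⟨i0, hi0⟩ : ∃ i, y i ≠ 0 := by
    by_contra h
    push Not at h
    exact hy (funext h)
  have : Nonempty V := ⟨i0⟩
  obtain ⟨i, hi⟩ := Finite.exists_max (fun i => |y i| / x i)
  have hpos : 0 < |y i| / x i :=
    lt_of_lt_of_le (div_pos (abs_pos.mpr hi0) (hx i0)) (hi i0)
  have hyi : 0 < |y i| := by
    have := mul_pos hpos (hx i)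
    rwa [div_mul_cancel₀ _ (hx i).ne'] at this
  have hle : ∀ j, |y j| ≤ |y i| / x i * x j := fun j => by
    have := hi j
    rwa [div_le_iff₀ (hx j)] at this
  have h1 : |μ| * |y i| ≤ l * |y i| := by
    have e1 : (A *ᵥ y) i = μ * y i := by rw [hAy]; simp
    have e2 : (A *ᵥ x) i = l * x i := by rw [hAx]; simp
    calc |μ| * |y i| = |(A *ᵥ y) i| := by rw [e1, abs_mul]
      _ = |∑ j, A i j * y j| := by simp [Matrix.mulVec, dotProduct]
      _ ≤ ∑ j, |A i j * y j| := Finset.abs_sum_le_sum_abs _ _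
      _ = ∑ j, A i j * |y j| := by
          refine Finset.sum_congr rfl fun j _ => ?_
          rw [abs_mul, abs_of_nonneg (hA i j)]
      _ ≤ ∑ j, A i j * (|y i| / x i * x j) := by
          refine Finset.sum_le_sum fun j _ => ?_
          exact mul_le_mul_of_nonneg_left (hle j) (hA i j)
      _ = |y i| / x i * ∑ j, A i j * x j := by
          rw [Finset.mul_sum]
          refine Finset.sum_congr rfl fun j _ => ?_
          ring
      _ = |y i| / x i * (A *ᵥ x) i := by simp [Matrix.mulVec, dotProduct]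
      _ = l * |y i| := by
          rw [e2]
          have := (hx i).ne'
          field_simp
  have h2 : |μ| ≤ l := le_of_mul_le_mul_right h1 hyi
  exact (le_abs_self μ).trans h2

/-! ### The graphs -/

/-- The complete tripartite graph `K_{1,1,n+1}`: the two hubs are `0` and `1`. -/
def bigG (n : ℕ) : SimpleGraph (Fin (n + 3)) where
  Adj u v := u ≠ v ∧ (u.val < 2 ∨ v.val < 2)
  symm := ⟨fun _ _ h => ⟨h.1.symm, h.2.symm⟩⟩
  loopless := ⟨fun _ h => h.1 rfl⟩

/-- The complete bipartite graph `K_{2,n+1}`, which is `K_{1,1,n+1}` minus the edge between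
the two hubs. -/
def smallG (n : ℕ) : SimpleGraph (Fin (n + 3)) where
  Adj u v := (u.val < 2 ∧ ¬ v.val < 2) ∨ (¬ u.val < 2 ∧ v.val < 2)
  symm := ⟨fun _ _ h => h.elim (fun h => Or.inr ⟨h.2, h.1⟩) (fun h => Or.inl ⟨h.2, h.1⟩)⟩
  loopless := ⟨fun _ h => h.elim (fun h => h.2 h.1) (fun h => h.1 h.2)⟩

lemma sum_split (n : ℕ) (f : Fin (n + 3) → ℝ) :
    ∑ v, f v = f 0 + f 1 + ∑ i : Fin (n + 1), f i.succ.succ := by
  rw [Fin.sum_univ_succ, Fin.sum_univ_succ]
  simp [add_assoc]

lemma mulVec_apply' {V : Type} [Fintype V] (A : Matrix V V ℝ) (x : V → ℝ) (i : V) :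
    (A *ᵥ x) i = ∑ j, A i j * x j := rfl

lemma lap_mulVec {V : Type} [Fintype V] (H : WeightedGraph V) (x : V → ℝ) (i : V) :
    (H.lap *ᵥ x) i = ∑ j, H.adj i j * (x i - x j) := by
  classical
  simp only [WeightedGraph.lap]
  rw [Matrix.sub_mulVec]
  simp only [Pi.sub_apply]
  rw [mulVec_apply' H.adj]
  have : (Matrix.diagonal (fun u => ∑ v, H.adj u v) *ᵥ x) i = (∑ v, H.adj i v) * x i := by
    exact Matrix.mulVec_diagonal _ _ _
  have h2 : ((@Matrix.diagonal V ℝ (fun a b => Classical.propDecidable (a = b)) _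
      (fun u => ∑ v, H.adj u v)) *ᵥ x) i = (∑ v, H.adj i v) * x i := by
    convert this
  rw [h2, Finset.sum_mul, ← Finset.sum_sub_distrib]
  refine Finset.sum_congr rfl fun j _ => ?_
  ring

lemma adj_bigG (n : ℕ) (u v : Fin (n + 3)) :
    (unweighted (bigG n)).adj u v = if u ≠ v ∧ (u.val < 2 ∨ v.val < 2) then 1 else 0 := by
  by_cases h : (bigG n).Adj u v
  · have h' : u ≠ v ∧ (u.val < 2 ∨ v.val < 2) := h
    rw [if_pos h']
    exact if_pos h
  · have h' : ¬ (u ≠ v ∧ (u.val < 2 ∨ v.val < 2)) := h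
    rw [if_neg h']
    exact if_neg h

lemma adj_smallG (n : ℕ) (u v : Fin (n + 3)) :
    (unweighted (smallG n)).adj u v =
      if (u.val < 2 ∧ ¬ v.val < 2) ∨ (¬ u.val < 2 ∧ v.val < 2) then 1 else 0 := by
  by_cases h : (smallG n).Adj u v
  · have h' : (u.val < 2 ∧ ¬ v.val < 2) ∨ (¬ u.val < 2 ∧ v.val < 2) := h
    rw [if_pos h']
    exact if_pos h
  · have h' : ¬ ((u.val < 2 ∧ ¬ v.val < 2) ∨ (¬ u.val < 2 ∧ v.val < 2)) := h
    rw [if_neg h']
    exact if_neg h

lemma succ_succ_ne (n : ℕ) (i : Fin (n + 1)) : ¬ (i.succ.succ : Fin (n + 3)).val < 2 := by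
  simp [Fin.val_succ]

lemma row_bigG_zero (n : ℕ) (f : Fin (n + 3) → ℝ) :
    ∑ v, (unweighted (bigG n)).adj 0 v * f v = f 1 + ∑ i : Fin (n + 1), f i.succ.succ := by
  rw [sum_split]
  have h0 : (unweighted (bigG n)).adj 0 0 = 0 := by rw [adj_bigG]; simp
  have h1 : (unweighted (bigG n)).adj 0 1 = 1 := by rw [adj_bigG]; simp
  have h2 : ∀ i : Fin (n + 1), (unweighted (bigG n)).adj 0 i.succ.succ = 1 := by
    intro i; rw [adj_bigG, if_pos]
    refine ⟨?_, Or.inl (by simp)⟩
    intro h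
    have := congrArg Fin.val h
    simp [Fin.val_succ] at this
  rw [h0, h1]
  simp [h2]

lemma row_bigG_one (n : ℕ) (f : Fin (n + 3) → ℝ) :
    ∑ v, (unweighted (bigG n)).adj 1 v * f v = f 0 + ∑ i : Fin (n + 1), f i.succ.succ := by
  rw [sum_split]
  have h0 : (unweighted (bigG n)).adj 1 0 = 1 := by rw [adj_bigG]; simp
  have h1 : (unweighted (bigG n)).adj 1 1 = 0 := by rw [adj_bigG]; simp
  have h2 : ∀ i : Fin (n + 1), (unweighted (bigG n)).adj 1 i.succ.succ = 1 := by
    intro i; rw [adj_bigG, if_pos]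
    refine ⟨?_, Or.inl (by simp)⟩
    intro h
    have := congrArg Fin.val h
    simp [Fin.val_succ] at this
  rw [h0, h1]
  simp [h2]

lemma row_bigG_leaf (n : ℕ) (f : Fin (n + 3) → ℝ) (i : Fin (n + 1)) :
    ∑ v, (unweighted (bigG n)).adj i.succ.succ v * f v = f 0 + f 1 := by
  rw [sum_split]
  have h0 : (unweighted (bigG n)).adj i.succ.succ 0 = 1 := by
    rw [adj_bigG, if_pos]
    refine ⟨?_, Or.inr (by simp)⟩
    intro h
    have := congrArg Fin.val h
    simp [Fin.val_succ] at this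
  have h1 : (unweighted (bigG n)).adj i.succ.succ 1 = 1 := by
    rw [adj_bigG, if_pos]
    refine ⟨?_, Or.inr (by simp)⟩
    intro h
    have := congrArg Fin.val h
    simp [Fin.val_succ] at this
  have h2 : ∀ j : Fin (n + 1), (unweighted (bigG n)).adj i.succ.succ j.succ.succ = 0 := by
    intro j; rw [adj_bigG, if_neg]
    rintro ⟨_, h | h⟩
    · exact succ_succ_ne n _ h
    · exact succ_succ_ne n _ h
  rw [h0, h1]
  simp [h2]

lemma row_smallG_zero (n : ℕ) (f : Fin (n + 3) → ℝ) :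
    ∑ v, (unweighted (smallG n)).adj 0 v * f v = ∑ i : Fin (n + 1), f i.succ.succ := by
  rw [sum_split]
  have h0 : (unweighted (smallG n)).adj 0 0 = 0 := by rw [adj_smallG]; simp
  have h1 : (unweighted (smallG n)).adj 0 1 = 0 := by rw [adj_smallG]; simp
  have h2 : ∀ i : Fin (n + 1), (unweighted (smallG n)).adj 0 i.succ.succ = 1 := by
    intro i; rw [adj_smallG, if_pos]
    exact Or.inl ⟨by simp, succ_succ_ne n i⟩
  rw [h0, h1]
  simp [h2]

lemma row_smallG_one (n : ℕ) (f : Fin (n + 3) → ℝ) :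
    ∑ v, (unweighted (smallG n)).adj 1 v * f v = ∑ i : Fin (n + 1), f i.succ.succ := by
  rw [sum_split]
  have h0 : (unweighted (smallG n)).adj 1 0 = 0 := by rw [adj_smallG]; simp
  have h1 : (unweighted (smallG n)).adj 1 1 = 0 := by rw [adj_smallG]; simp
  have h2 : ∀ i : Fin (n + 1), (unweighted (smallG n)).adj 1 i.succ.succ = 1 := by
    intro i; rw [adj_smallG, if_pos]
    exact Or.inl ⟨by simp, succ_succ_ne n i⟩
  rw [h0, h1]
  simp [h2]

lemma row_smallG_leaf (n : ℕ) (f : Fin (n + 3) → ℝ) (i : Fin (n + 1)) :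
    ∑ v, (unweighted (smallG n)).adj i.succ.succ v * f v = f 0 + f 1 := by
  rw [sum_split]
  have h0 : (unweighted (smallG n)).adj i.succ.succ 0 = 1 := by
    rw [adj_smallG, if_pos]
    exact Or.inr ⟨succ_succ_ne n i, by simp⟩
  have h1 : (unweighted (smallG n)).adj i.succ.succ 1 = 1 := by
    rw [adj_smallG, if_pos]
    exact Or.inr ⟨succ_succ_ne n i, by simp⟩
  have h2 : ∀ j : Fin (n + 1), (unweighted (smallG n)).adj i.succ.succ j.succ.succ = 0 := by
    intro j; rw [adj_smallG, if_neg]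
    rintro (h | h)
    · exact succ_succ_ne n _ h.1
    · exact succ_succ_ne n _ h.2
  rw [h0, h1]
  simp [h2]

/-! ### The quadratic forms -/

lemma quad_smallG (n : ℕ) (x : Fin (n + 3) → ℝ) :
    x ⬝ᵥ ((unweighted (smallG n)).lap *ᵥ x) =
      ∑ i : Fin (n + 1), ((x 0 - x i.succ.succ) ^ 2 + (x 1 - x i.succ.succ) ^ 2) := by
  simp only [dotProduct]
  rw [sum_split]
  rw [lap_mulVec, lap_mulVec]
  rw [row_smallG_zero, row_smallG_one]
  have : ∀ i : Fin (n + 1), x i.succ.succ * ((unweighted (smallG n)).lap *ᵥ x) i.succ.succ =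
      x i.succ.succ * ((x i.succ.succ - x 0) + (x i.succ.succ - x 1)) := by
    intro i
    rw [lap_mulVec, row_smallG_leaf]
  rw [Finset.sum_congr rfl (fun i _ => this i), Finset.mul_sum, Finset.mul_sum,
    ← Finset.sum_add_distrib, ← Finset.sum_add_distrib]
  refine Finset.sum_congr rfl fun i _ => ?_
  ring

lemma quad_bigG (n : ℕ) (x : Fin (n + 3) → ℝ) :
    x ⬝ᵥ ((unweighted (bigG n)).lap *ᵥ x) = (x 0 - x 1) ^ 2 +
      ∑ i : Fin (n + 1), ((x 0 - x i.succ.succ) ^ 2 + (x 1 - x i.succ.succ) ^ 2) := by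
  simp only [dotProduct]
  rw [sum_split]
  rw [lap_mulVec, lap_mulVec]
  rw [row_bigG_zero, row_bigG_one]
  have : ∀ i : Fin (n + 1), x i.succ.succ * ((unweighted (bigG n)).lap *ᵥ x) i.succ.succ =
      x i.succ.succ * ((x i.succ.succ - x 0) + (x i.succ.succ - x 1)) := by
    intro i
    rw [lap_mulVec, row_bigG_leaf]
  rw [Finset.sum_congr rfl (fun i _ => this i)]
  have h3 : x 0 * (x 0 - x 1 + ∑ i : Fin (n + 1), (x 0 - x i.succ.succ)) +
      x 1 * (x 1 - x 0 + ∑ i : Fin (n + 1), (x 1 - x i.succ.succ)) +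
      ∑ i : Fin (n + 1), x i.succ.succ * ((x i.succ.succ - x 0) + (x i.succ.succ - x 1)) =
      (x 0 - x 1) ^ 2 + (x 0 * ∑ i : Fin (n + 1), (x 0 - x i.succ.succ) +
      x 1 * ∑ i : Fin (n + 1), (x 1 - x i.succ.succ) +
      ∑ i : Fin (n + 1), x i.succ.succ * ((x i.succ.succ - x 0) + (x i.succ.succ - x 1))) := by
    ring
  rw [h3, Finset.mul_sum, Finset.mul_sum, ← Finset.sum_add_distrib, ← Finset.sum_add_distrib]
  congr 1
  refine Finset.sum_congr rfl fun i _ => ?_
  ring

lemma sum_lower (n : ℕ) (x : Fin (n + 3) → ℝ) :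
    ((n : ℝ) + 1) / 2 * (x 0 - x 1) ^ 2 ≤
      ∑ i : Fin (n + 1), ((x 0 - x i.succ.succ) ^ 2 + (x 1 - x i.succ.succ) ^ 2) := by
  have h : ∀ i : Fin (n + 1), (x 0 - x 1) ^ 2 / 2 ≤
      (x 0 - x i.succ.succ) ^ 2 + (x 1 - x i.succ.succ) ^ 2 := by
    intro i
    nlinarith [sq_nonneg (x 0 + x 1 - 2 * x i.succ.succ)]
  calc ((n : ℝ) + 1) / 2 * (x 0 - x 1) ^ 2 = ∑ _i : Fin (n + 1), (x 0 - x 1) ^ 2 / 2 := by
        rw [Finset.sum_const, Finset.card_univ, Fintype.card_fin, nsmul_eq_mul]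
        push_cast
        ring
    _ ≤ _ := Finset.sum_le_sum fun i _ => h i

lemma isSparsifier (n : ℕ) :
    IsSparsifier (bigG n) (unweighted (smallG n)) (2 / ((n : ℝ) + 3)) := by
  have hn : (0 : ℝ) < (n : ℝ) + 3 := by positivity
  refine ⟨?_, fun x => ?_⟩
  · intro u v h
    change (u.val < 2 ∧ ¬ v.val < 2) ∨ (¬ u.val < 2 ∧ v.val < 2) at h
    change u ≠ v ∧ (u.val < 2 ∨ v.val < 2)
    refine ⟨?_, ?_⟩
    · rintro rfl
      tauto
    · tauto
  · rw [quad_smallG, quad_bigG]
    have hS := sum_lower n x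
    set S := ∑ i : Fin (n + 1), ((x 0 - x i.succ.succ) ^ 2 + (x 1 - x i.succ.succ) ^ 2) with hSdef
    have hd : 0 ≤ (x 0 - x 1) ^ 2 := sq_nonneg _
    have hS0 : 0 ≤ S := le_trans (by positivity) hS
    have he : (2 : ℝ) / ((n : ℝ) + 3) * ((n : ℝ) + 3) = 2 := by field_simp
    set e := (2 : ℝ) / ((n : ℝ) + 3) with hedef
    have he0 : 0 < e := by positivity
    constructor
    · have h1 : e * (((n : ℝ) + 1) / 2 * (x 0 - x 1) ^ 2) ≤ e * S :=
        mul_le_mul_of_nonneg_left hS he0.le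
      have h2 : e * (((n : ℝ) + 1) / 2 * (x 0 - x 1) ^ 2) = (1 - e) * (x 0 - x 1) ^ 2 := by
        have : e * (n : ℝ) = 2 - 3 * e := by linarith
        calc e * (((n : ℝ) + 1) / 2 * (x 0 - x 1) ^ 2)
            = (e * n + e) / 2 * (x 0 - x 1) ^ 2 := by ring
          _ = (1 - e) * (x 0 - x 1) ^ 2 := by rw [this]; ring
      nlinarith
    · nlinarith [mul_nonneg he0.le hS0, mul_nonneg he0.le hd]

/-! ### The largest eigenvalues -/

lemma isLargest_smallG (n : ℕ) :
    IsLargestEigenvalue (unweighted (smallG n)).adj (Real.sqrt (2 * ((n : ℝ) + 1))) := by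
  set l := Real.sqrt (2 * ((n : ℝ) + 1)) with hl
  have hlpos : 0 < l := Real.sqrt_pos.mpr (by positivity)
  have hlsq : l * l = 2 * ((n : ℝ) + 1) := Real.mul_self_sqrt (by positivity)
  -- positive eigenvector: `l` on the hubs, `2` on the other vertices
  let x : Fin (n + 3) → ℝ := fun v => if v.val < 2 then l else 2
  have hx0 : x 0 = l := by simp [x]
  have hx1 : x 1 = l := by simp [x]
  have hx2 : ∀ i : Fin (n + 1), x i.succ.succ = 2 := by
    intro i
    simp only [x]
    rw [if_neg (succ_succ_ne n i)]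
  have hxpos : ∀ v, 0 < x v := by
    intro v
    simp only [x]
    split_ifs
    · exact hlpos
    · norm_num
  have hAx : (unweighted (smallG n)).adj *ᵥ x = l • x := by
    funext v
    rw [mulVec_apply']
    refine Fin.cases ?_ (fun v => Fin.cases ?_ (fun i => ?_) v) v
    · rw [row_smallG_zero]
      simp only [hx2, Pi.smul_apply, hx0, smul_eq_mul, Finset.sum_const, Finset.card_univ,
        Fintype.card_fin, nsmul_eq_mul]
      push_cast
      linarith
    · change ∑ v, (unweighted (smallG n)).adj 1 v * x v = (l • x) 1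
      rw [row_smallG_one]
      simp only [hx2, Pi.smul_apply, hx1, smul_eq_mul, Finset.sum_const, Finset.card_univ,
        Fintype.card_fin, nsmul_eq_mul]
      push_cast
      linarith
    · rw [row_smallG_leaf]
      simp only [hx2, Pi.smul_apply, hx0, hx1, smul_eq_mul]
      ring
  refine ⟨⟨x, ?_, hAx⟩, ?_⟩
  · intro h
    have := hxpos 0
    rw [h] at this
    simp at this
  · rintro μ ⟨y, hy, hAy⟩
    refine perron_bound _ (fun i j => ?_) x hxpos l hAx μ y hy hAy
    rw [adj_smallG]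
    split_ifs <;> norm_num

lemma isLargest_bigG (n : ℕ) :
    IsLargestEigenvalue (unweighted (bigG n)).adj
      ((1 + Real.sqrt (1 + 8 * ((n : ℝ) + 1))) / 2) := by
  set s := Real.sqrt (1 + 8 * ((n : ℝ) + 1)) with hs
  have hspos : 0 < s := Real.sqrt_pos.mpr (by positivity)
  have hssq : s * s = 1 + 8 * ((n : ℝ) + 1) := Real.mul_self_sqrt (by positivity)
  set l := (1 + s) / 2 with hl
  have hlpos : 0 < l := by positivity
  have hlsq : l * l = l + 2 * ((n : ℝ) + 1) := by
    have : l * l = (1 + 2 * s + s * s) / 4 := by rw [hl]; ring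
    rw [this, hssq, hl]
    ring
  let x : Fin (n + 3) → ℝ := fun v => if v.val < 2 then l else 2
  have hx0 : x 0 = l := by simp [x]
  have hx1 : x 1 = l := by simp [x]
  have hx2 : ∀ i : Fin (n + 1), x i.succ.succ = 2 := by
    intro i
    simp only [x]
    rw [if_neg (succ_succ_ne n i)]
  have hxpos : ∀ v, 0 < x v := by
    intro v
    simp only [x]
    split_ifs
    · exact hlpos
    · norm_num
  have hAx : (unweighted (bigG n)).adj *ᵥ x = l • x := by
    funext v
    rw [mulVec_apply']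
    refine Fin.cases ?_ (fun v => Fin.cases ?_ (fun i => ?_) v) v
    · rw [row_bigG_zero]
      simp only [hx2, Pi.smul_apply, hx0, hx1, smul_eq_mul, Finset.sum_const, Finset.card_univ,
        Fintype.card_fin, nsmul_eq_mul]
      push_cast
      linarith
    · change ∑ v, (unweighted (bigG n)).adj 1 v * x v = (l • x) 1
      rw [row_bigG_one]
      simp only [hx2, Pi.smul_apply, hx0, hx1, smul_eq_mul, Finset.sum_const, Finset.card_univ,
        Fintype.card_fin, nsmul_eq_mul]
      push_cast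
      linarith
    · rw [row_bigG_leaf]
      simp only [hx2, Pi.smul_apply, hx0, hx1, smul_eq_mul]
      ring
  refine ⟨⟨x, ?_, hAx⟩, ?_⟩
  · intro h
    have := hxpos 0
    rw [h] at this
    simp at this
  · rintro μ ⟨y, hy, hAy⟩
    refine perron_bound _ (fun i j => ?_) x hxpos l hAx μ y hy hAy
    rw [adj_bigG]
    split_ifs <;> norm_num

lemma connected_bigG (n : ℕ) : (bigG n).Connected := by
  have h : ∀ v, (bigG n).Reachable 0 v := by
    intro v
    by_cases hv : (0 : Fin (n + 3)) = v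
    · rw [hv]
    · exact SimpleGraph.Adj.reachable ⟨hv, Or.inl (by simp)⟩
  exact { preconnected := fun u v => (h u).symm.trans (h v), nonempty := ⟨0⟩ }

lemma small_lt_big (n : ℕ) : smallG n < bigG n := by
  refine lt_of_le_of_ne (isSparsifier n).1 ?_
  intro h
  have h1 : (bigG n).Adj 0 1 := ⟨by simp, Or.inl (by simp)⟩
  rw [← h] at h1
  rcases h1 with h1 | h1
  · exact h1.2 (by simp)
  · exact h1.1 (by simp)

/-- **Q1, positive answer.** There are triples `(G_n, ε_n, H_n)` with `G_n` connected,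
`0 < ε_n < 1` and `H_n` an edge-deleting `(1 ± ε_n)`-Laplacian sparsifier of `G_n`, such that
`|λ₁(A_{H_n}) - λ₁(A_{G_n})| / (ε_n λ₁(A_{G_n})) → ∞`. -/
theorem result :
    ∃ (N : ℕ → ℕ) (G : ∀ n, SimpleGraph (Fin (N n))) (H : ∀ n, WeightedGraph (Fin (N n)))
      (ε lG lH : ℕ → ℝ),
      (∀ n, (G n).Connected ∧ 0 < ε n ∧ ε n < 1 ∧
        IsSparsifier (G n) (H n) (ε n) ∧ (H n).graph < G n ∧
        IsLargestEigenvalue (unweighted (G n)).adj (lG n) ∧
        IsLargestEigenvalue (H n).adj (lH n)) ∧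
      Tendsto (fun n => |lH n - lG n| / (ε n * lG n)) atTop atTop := by
  refine ⟨fun n => n + 3, bigG, fun n => unweighted (smallG n),
    fun n => 2 / ((n : ℝ) + 3), fun n => (1 + Real.sqrt (1 + 8 * ((n : ℝ) + 1))) / 2,
    fun n => Real.sqrt (2 * ((n : ℝ) + 1)), fun n => ⟨connected_bigG n, by positivity, ?_,
      isSparsifier n, small_lt_big n, isLargest_bigG n, isLargest_smallG n⟩, ?_⟩
  · have : (0 : ℝ) ≤ n := Nat.cast_nonneg n
    rw [div_lt_one (by positivity)]
    linarith
  · have key : ∀ n : ℕ, Real.sqrt ((n : ℝ) + 3) / 16 ≤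
        |Real.sqrt (2 * ((n : ℝ) + 1)) - (1 + Real.sqrt (1 + 8 * ((n : ℝ) + 1))) / 2| /
          (2 / ((n : ℝ) + 3) * ((1 + Real.sqrt (1 + 8 * ((n : ℝ) + 1))) / 2)) := by
      intro n
      have hn0 : (0 : ℝ) ≤ n := Nat.cast_nonneg n
      set s := Real.sqrt (1 + 8 * ((n : ℝ) + 1)) with hs
      set t := Real.sqrt (2 * ((n : ℝ) + 1)) with ht
      set r := Real.sqrt ((n : ℝ) + 3) with hr
      have hspos : 0 < s := Real.sqrt_pos.mpr (by positivity)
      have htpos : 0 < t := Real.sqrt_pos.mpr (by positivity)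
      have hrpos : 0 < r := Real.sqrt_pos.mpr (by positivity)
      have hssq : s * s = 1 + 8 * ((n : ℝ) + 1) := Real.mul_self_sqrt (by positivity)
      have htsq : t * t = 2 * ((n : ℝ) + 1) := Real.mul_self_sqrt (by positivity)
      have hrsq : r * r = (n : ℝ) + 3 := Real.mul_self_sqrt (by positivity)
      have h2ts : 2 * t ≤ s := by nlinarith
      have hnum : 1 / 2 ≤ |t - (1 + s) / 2| := by
        rw [abs_sub_comm]
        refine le_trans ?_ (le_abs_self _)
        linarith
      have hs3 : s ≤ 3 * r := by nlinarith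
      have hr1 : 1 ≤ r := by nlinarith
      have hden : 2 / ((n : ℝ) + 3) * ((1 + s) / 2) ≤ 4 / r := by
        rw [← hrsq]
        have : 2 / (r * r) * ((1 + s) / 2) = (1 + s) / (r * r) := by field_simp
        rw [this, div_le_div_iff₀ (by positivity) hrpos]
        nlinarith
      have hdenpos : 0 < 2 / ((n : ℝ) + 3) * ((1 + s) / 2) := by positivity
      rw [le_div_iff₀ hdenpos]
      calc r / 16 * (2 / ((n : ℝ) + 3) * ((1 + s) / 2)) ≤ r / 16 * (4 / r) :=
            mul_le_mul_of_nonneg_left hden (by positivity)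
        _ = 1 / 4 := by field_simp; norm_num
        _ ≤ _ := by linarith
    refine tendsto_atTop_mono key ?_
    refine Tendsto.atTop_div_const (by norm_num) ?_
    refine Real.tendsto_sqrt_atTop.comp ?_
    exact tendsto_atTop_add_const_right _ _ tendsto_natCast_atTop_atTop

end Pool.Agent.Results.MP_7ca01f_co.UnboundedDistortion
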